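import Pool.Agent.H30.SIG.Sgn
import Pool.Agent.H21.QW.Comb

/-!
# The signal of a candidate (row 366, K_COMB (B-ii))

`Sgl` is the record of the signal of one member of an optimal family: a finite law, the digits `y`,
the pollution `F`, the integer vector `S`. `sgl_exists` builds it from FRESH for a candidate of
either side and either class.
-/

set_option autoImplicit false
set_option linter.unusedSectionVars false
set_option linter.unusedVariables false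

namespace Pool.SGL30

open Finset Real
open Pool.Agent.H49.Ent Pool.Agent.H32.Dense Pool.STK Pool.KS6 Pool.RC21 Pool.QC

section abs

variable {c d e : ℕ} {α β : Type}

/-- A rectangle of the array. -/
def rect (h : α → β → Fin c → ℤ) (a : Fin 2 → α) (t : Fin 2 → β) : Fin c → ℤ :=
  h (a 0) (t 0) - h (a 1) (t 0) - h (a 0) (t 1) + h (a 1) (t 1)

/-- On adjacent labels the array is `x ∧ f` up to `C`. -/
def Rect (adj : α → β → Prop) (x : α → Fin d → ℤ) (u : Fin d) (f : α → Fin c → ℝ)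
    (z : β → Fin e → ℤ) (o : Fin e) (g : β → Fin c → ℝ) (h : α → β → Fin c → ℤ) (C : ℝ) : Prop :=
  ∀ (a : Fin 2 → α) (t : Fin 2 → β), (∀ i j, adj (a i) (t j)) →
    (∀ j, j ≠ u → inc x a j = 0) → (∀ j, j ≠ o → inc z t j = 0) → ∀ i,
    |(rect h a t i : ℝ) - ((inc x a u : ℤ) * inc g t i - (inc z t o : ℤ) * inc f a i)| ≤ C

/-- The signal of a candidate of the class `true`. -/
def sT (h : α → β → Fin c → ℤ) (m : ℕ) (a a' : Fin 2 → α) (b ω : Fin 3 → β) : Fin c → ℤ :=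
  (2 ^ m : ℤ) • rect h a' ![ω 0, b 0] - rect h a ![ω 0, b 0]

/-- The signal of a candidate of the class `false`. -/
def sF (h : α → β → Fin c → ℤ) (N : ℤ) (a a' : Fin 2 → α) (b ω : Fin 3 → β) : Fin c → ℤ :=
  N • rect h a ![ω 1, b 1] + rect h a ![ω 2, b 2] - rect h a' ![ω 0, b 0]

/-- The vector in the pollution. -/
noncomputable def pD (g : β → Fin c → ℝ) (N : ℤ) (ρ : ℝ) (b ω : Fin 3 → β) (i : Fin c) : ℝ :=
  N * inc g ![ω 1, b 1] i + inc g ![ω 2, b 2] i - ρ * inc g ![ω 0, b 0] i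

/-- The link of a sample with the fixed sample. -/
def Lk (X m : ℕ) (z : β → Fin e → ℤ) (o : Fin e) (v : ℤ) (b ω : Fin 3 → β) : Prop :=
  (∀ i j, j ≠ o → z (ω i) j = z (b i) j) ∧
    z (ω 0) o - z (b 0) o = 2 ^ m * (z (ω 1) o - z (b 1) o) ∧
    |2 ^ X * (z (ω 2) o - z (b 2) o) - v * (z (ω 1) o - z (b 1) o)| ≤ 2 ^ X

variable {adj : α → β → Prop} {x : α → Fin d → ℤ} {u : Fin d} {f : α → Fin c → ℝ}
  {z : β → Fin e → ℤ} {o : Fin e} {g : β → Fin c → ℝ} {h : α → β → Fin c → ℤ} {C : ℝ}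

theorem sT_near (H : Rect adj x u f z o g h C) {m : ℕ} {a a' : Fin 2 → α} {b ω : Fin 3 → β}
    (ha : ∀ i j, adj (a i) (![ω 0, b 0] j)) (ha' : ∀ i j, adj (a' i) (![ω 0, b 0] j))
    (hx : ∀ j, j ≠ u → inc x a j = 0 ∧ inc x a' j = 0) (h1 : inc x a u = 2 ^ m * inc x a' u)
    (hz : ∀ j, j ≠ o → z (ω 0) j = z (b 0) j) (i : Fin c) :
    |(sT h m a a' b ω i : ℝ) - ((z (ω 0) o - z (b 0) o : ℤ) : ℝ) *
      (inc f a - (2 : ℝ) ^ m • inc f a') i| ≤ (1 + 2 ^ m) * C := by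
  have hz' : ∀ j, j ≠ o → inc z ![ω 0, b 0] j = 0 := by
    intro j hj
    show z (ω 0) j - z (b 0) j = 0
    rw [hz j hj, sub_self]
  have k1 := H a ![ω 0, b 0] ha (fun j hj => (hx j hj).1) hz' i
  have k2 := H a' ![ω 0, b 0] ha' (fun j hj => (hx j hj).2) hz' i
  have e0 : (inc z ![ω 0, b 0] o : ℤ) = z (ω 0) o - z (b 0) o := rfl
  have h1' : ((inc x a u : ℤ) : ℝ) = 2 ^ m * ((inc x a' u : ℤ) : ℝ) := by
    rw [h1]
    push_cast
    ring
  have e1 : (sT h m a a' b ω i : ℝ) = 2 ^ m * (rect h a' ![ω 0, b 0] i : ℝ) -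
      (rect h a ![ω 0, b 0] i : ℝ) := by
    unfold sT
    simp only [Pi.sub_apply, Pi.smul_apply, smul_eq_mul]
    push_cast
    ring
  rw [e1]
  rw [e0] at k1 k2
  rw [h1'] at k1
  simp only [Pi.sub_apply, Pi.smul_apply, smul_eq_mul]
  have hp : (0 : ℝ) < 2 ^ m := by positivity
  rw [abs_le] at k1 k2 ⊢
  have k3 := mul_le_mul_of_nonneg_left k2.1 hp.le
  have k4 := mul_le_mul_of_nonneg_left k2.2 hp.le
  constructor <;> nlinarith [k1.1, k1.2]

theorem sF_near (H : Rect adj x u f z o g h C) {X m : ℕ} {a a' : Fin 2 → α} {b ω : Fin 3 → β}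
    (ha : ∀ i k, adj (a i) (ω k) ∧ adj (a i) (b k)) (ha' : ∀ i k, adj (a' i) (ω k) ∧ adj (a' i) (b k))
    (hx : ∀ j, j ≠ u → inc x a j = 0 ∧ inc x a' j = 0) {v v' N : ℤ}
    (hv : 2 ^ m * v = N * 2 ^ X + v') (hN : |N| ≤ 2 ^ m)
    (h1 : |2 ^ X * inc x a' u - v * inc x a u| ≤ 4 * 2 ^ X) (hz : Lk X m z o v' b ω) {C₀ : ℝ}
    (hf : ∀ a i, |inc f a i| ≤ C₀) (hg : ∀ t i, |inc g t i| ≤ C₀) (i : Fin c) :
    |(sF h N a a' b ω i : ℝ) - (((z (ω 0) o - z (b 0) o : ℤ) : ℝ) *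
      (inc f a' - ((v : ℝ) / 2 ^ X) • inc f a) i +
        (inc x a u : ℤ) * pD g N ((v : ℝ) / 2 ^ X) b ω i)| ≤ (2 + 2 ^ m) * C + 5 * C₀ := by
  obtain ⟨z1, z2, z3⟩ := hz
  have adj2 : ∀ (a : Fin 2 → α), (∀ i k, adj (a i) (ω k) ∧ adj (a i) (b k)) → ∀ k : Fin 3,
      ∀ i j, adj (a i) (![ω k, b k] j) := by
    intro a ha k i j
    fin_cases j
    · exact (ha i k).1
    · exact (ha i k).2
  have hz' : ∀ k : Fin 3, ∀ j, j ≠ o → inc z ![ω k, b k] j = 0 := by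
    intro k j hj
    show z (ω k) j - z (b k) j = 0
    rw [z1 k j hj, sub_self]
  have k1 := H a' ![ω 0, b 0] (adj2 a' ha' 0) (fun j hj => (hx j hj).2) (hz' 0) i
  have k2 := H a ![ω 1, b 1] (adj2 a ha 1) (fun j hj => (hx j hj).1) (hz' 1) i
  have k3 := H a ![ω 2, b 2] (adj2 a ha 2) (fun j hj => (hx j hj).1) (hz' 2) i
  have hC : 0 ≤ C := (abs_nonneg _).trans k1
  have hC₀ : 0 ≤ C₀ := (abs_nonneg _).trans (hf a i)
  have hX : (0 : ℝ) < 2 ^ X := by positivity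
  have i0 : (inc z ![ω 0, b 0] o : ℤ) = z (ω 0) o - z (b 0) o := rfl
  have i1 : (inc z ![ω 1, b 1] o : ℤ) = z (ω 1) o - z (b 1) o := rfl
  have i2 : (inc z ![ω 2, b 2] o : ℤ) = z (ω 2) o - z (b 2) o := rfl
  rw [i0] at k1
  rw [i1] at k2
  rw [i2] at k3
  obtain ⟨y0, hy0⟩ : ∃ y : ℤ, y = z (ω 0) o - z (b 0) o := ⟨_, rfl⟩
  obtain ⟨y1, hy1⟩ : ∃ y : ℤ, y = z (ω 1) o - z (b 1) o := ⟨_, rfl⟩
  obtain ⟨y2, hy2⟩ : ∃ y : ℤ, y = z (ω 2) o - z (b 2) o := ⟨_, rfl⟩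
  rw [← hy0, ← hy1] at z2
  rw [← hy1, ← hy2] at z3
  rw [← hy0] at k1 ⊢
  rw [← hy1] at k2
  rw [← hy2] at k3
  have z2' : (y0 : ℝ) = 2 ^ m * y1 := by exact_mod_cast z2
  have p3 : |N * (y1 : ℝ) + y2 - (v : ℝ) / 2 ^ X * y0| ≤ 1 := by
    have e : N * (y1 : ℝ) + y2 - (v : ℝ) / 2 ^ X * y0 =
        (2 ^ X * (y2 : ℝ) - v' * y1) / 2 ^ X := by
      have hv' : (2 : ℝ) ^ m * v = N * 2 ^ X + v' := by exact_mod_cast hv
      rw [z2']
      have : (v : ℝ) / 2 ^ X * (2 ^ m * y1) = (2 ^ m * v) * y1 / 2 ^ X := by ring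
      rw [this, hv']
      field_simp
      ring
    rw [e, abs_div, abs_of_pos hX, div_le_one hX]
    exact_mod_cast z3
  have p4 : |((inc x a' u : ℤ) : ℝ) - (v : ℝ) / 2 ^ X * (inc x a u : ℤ)| ≤ 4 := by
    have e : ((inc x a' u : ℤ) : ℝ) - (v : ℝ) / 2 ^ X * (inc x a u : ℤ) =
        (2 ^ X * (inc x a' u : ℤ) - v * (inc x a u : ℤ)) / 2 ^ X := by
      field_simp
    rw [e, abs_div, abs_of_pos hX, div_le_iff₀ hX]
    exact_mod_cast h1
  have e1 : (sF h N a a' b ω i : ℝ) = N * (rect h a ![ω 1, b 1] i : ℝ) +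
      (rect h a ![ω 2, b 2] i : ℝ) - (rect h a' ![ω 0, b 0] i : ℝ) := by
    unfold sF
    simp only [Pi.sub_apply, Pi.add_apply, Pi.smul_apply, smul_eq_mul]
    push_cast
    ring
  have hNa : |(N : ℝ)| ≤ 2 ^ m := by exact_mod_cast hN
  set E1 := (rect h a' ![ω 0, b 0] i : ℝ) -
    ((inc x a' u : ℤ) * inc g ![ω 0, b 0] i - (y0 : ℝ) * inc f a' i) with hE1
  set E2 := (rect h a ![ω 1, b 1] i : ℝ) -
    ((inc x a u : ℤ) * inc g ![ω 1, b 1] i - (y1 : ℝ) * inc f a i) with hE2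
  set E3 := (rect h a ![ω 2, b 2] i : ℝ) -
    ((inc x a u : ℤ) * inc g ![ω 2, b 2] i - (y2 : ℝ) * inc f a i) with hE3
  have e3 : (sF h N a a' b ω i : ℝ) - ((y0 : ℝ) *
      (inc f a' - ((v : ℝ) / 2 ^ X) • inc f a) i +
        (inc x a u : ℤ) * pD g N ((v : ℝ) / 2 ^ X) b ω i) = N * E2 + E3 - E1 -
      (((inc x a' u : ℤ) : ℝ) - (v : ℝ) / 2 ^ X * (inc x a u : ℤ)) * inc g ![ω 0, b 0] i -
      (N * (y1 : ℝ) + y2 - (v : ℝ) / 2 ^ X * y0) * inc f a i := by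
    rw [e1, hE1, hE2, hE3]
    unfold pD
    simp only [Pi.sub_apply, Pi.smul_apply, smul_eq_mul]
    ring
  rw [e3]
  have b1 : |N * E2| ≤ 2 ^ m * C := by
    rw [abs_mul]
    exact mul_le_mul hNa k2 (abs_nonneg _) (by positivity)
  have b2 : |(((inc x a' u : ℤ) : ℝ) - (v : ℝ) / 2 ^ X * (inc x a u : ℤ)) *
      inc g ![ω 0, b 0] i| ≤ 4 * C₀ := by
    rw [abs_mul]
    exact mul_le_mul p4 (hg _ _) (abs_nonneg _) (by norm_num)
  have b3 : |(N * (y1 : ℝ) + y2 - (v : ℝ) / 2 ^ X * y0) * inc f a i| ≤ 1 * C₀ := by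
    rw [abs_mul]
    exact mul_le_mul p3 (hf _ _) (abs_nonneg _) (by norm_num)
  rw [abs_le] at k1 k3 b1 b2 b3 ⊢
  constructor <;> linarith [k1.1, k1.2, k3.1, k3.2, b1.1, b1.2, b2.1, b2.2, b3.1, b3.2]

/-- Two samples with the same digits form a candidate of the class `true`, -/
theorem pair_true {X m n : ℕ} {v : ℤ} {b ω ω' : Fin 3 → β} (h1 : Lk X m z o v b ω)
    (h2 : Lk X m z o v b ω') (hn : |z (ω 0) o - z (ω' 0) o| * 2 ^ n ≤ 2 ^ (X + 1)) :
    PairC X m n true z o g ![ω 0, ω' 0] ![ω 1, ω' 1]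
      (inc g ![ω 0, ω' 0] - (2 : ℝ) ^ m • inc g ![ω 1, ω' 1]) := by
  obtain ⟨a1, a2, a3⟩ := h1
  obtain ⟨b1, b2, b3⟩ := h2
  refine ⟨fun j hj => ⟨?_, ?_⟩, hn, Or.inl ⟨rfl, ?_, rfl⟩⟩
  · show z (ω 0) j - z (ω' 0) j = 0
    rw [a1 0 j hj, b1 0 j hj, sub_self]
  · show z (ω 1) j - z (ω' 1) j = 0
    rw [a1 1 j hj, b1 1 j hj, sub_self]
  · show z (ω 0) o - z (ω' 0) o = 2 ^ m * (z (ω 1) o - z (ω' 1) o)
    linarith

/-- and a candidate of the class `false`. -/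
theorem pair_false {X m n : ℕ} {v : ℤ} (hv : |v| ≤ 2 ^ X) {b ω ω' : Fin 3 → β}
    (h1 : Lk X m z o v b ω) (h2 : Lk X m z o v b ω')
    (hn : |z (ω 0) o - z (ω' 0) o| * 2 ^ n ≤ 2 ^ (X + 1)) :
    PairC X m (n + m) false z o g ![ω 1, ω' 1] ![ω 2, ω' 2]
      (inc g ![ω 2, ω' 2] - ((v : ℝ) / 2 ^ X) • inc g ![ω 1, ω' 1]) := by
  obtain ⟨a1, a2, a3⟩ := h1
  obtain ⟨b1, b2, b3⟩ := h2
  refine ⟨fun j hj => ⟨?_, ?_⟩, ?_, Or.inr ⟨rfl, v, hv, ?_, rfl⟩⟩
  · show z (ω 1) j - z (ω' 1) j = 0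
    rw [a1 1 j hj, b1 1 j hj, sub_self]
  · show z (ω 2) j - z (ω' 2) j = 0
    rw [a1 2 j hj, b1 2 j hj, sub_self]
  · show |z (ω 1) o - z (ω' 1) o| * 2 ^ (n + m) ≤ 2 ^ (X + 1)
    have e : z (ω 0) o - z (ω' 0) o = 2 ^ m * (z (ω 1) o - z (ω' 1) o) := by linarith
    rw [e, abs_mul, abs_of_nonneg (by positivity : (0 : ℤ) ≤ 2 ^ m)] at hn
    calc |z (ω 1) o - z (ω' 1) o| * 2 ^ (n + m) =
        2 ^ m * |z (ω 1) o - z (ω' 1) o| * 2 ^ n := by ring
      _ ≤ 2 ^ (X + 1) := hn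
  · show |2 ^ X * (z (ω 2) o - z (ω' 2) o) - v * (z (ω 1) o - z (ω' 1) o)| ≤ 4 * 2 ^ X
    have hX : (0 : ℤ) < 2 ^ X := by positivity
    rw [abs_le] at a3 b3 ⊢
    constructor <;> nlinarith [a3.1, a3.2, b3.1, b3.2]

/-- The difference of the pollutions of two samples. -/
theorem pD_sub {X m : ℕ} {v v' N : ℤ} (hv : 2 ^ m * v = N * 2 ^ X + v') (b ω ω' : Fin 3 → β) :
    (fun i => pD g N ((v : ℝ) / 2 ^ X) b ω i - pD g N ((v : ℝ) / 2 ^ X) b ω' i) =
      (inc g ![ω 2, ω' 2] - ((v' : ℝ) / 2 ^ X) • inc g ![ω 1, ω' 1]) -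
        ((v : ℝ) / 2 ^ X) • (inc g ![ω 0, ω' 0] - (2 : ℝ) ^ m • inc g ![ω 1, ω' 1]) := by
  funext i
  have hX : (2 : ℝ) ^ X ≠ 0 := by positivity
  have hv' : (N : ℝ) = (2 ^ m * v - v') / 2 ^ X := by
    have : (2 : ℝ) ^ m * v = N * 2 ^ X + v' := by exact_mod_cast hv
    field_simp
    linarith
  unfold pD inc
  simp only [Pi.sub_apply, Pi.smul_apply, smul_eq_mul, Matrix.cons_val_zero, Matrix.cons_val_one]
  rw [hv']
  field_simp
  ring

end abs

end Pool.SGL30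

namespace Pool.QC

open Finset Real
open Pool.Agent.H49.Ent Pool.Agent.H32.Dense Pool.STK Pool.KS6 Pool.RC21 Pool.SGL30

variable {c k : ℕ}

/-- The digits of an increment. -/
noncomputable def dg (X n : ℕ) (y : ℤ) : ℤ := ⌊(2 : ℝ) ^ n * ((1 + (y : ℝ) / 2 ^ X) / 2)⌋

/-- `f` is the value of a pollution of two candidates. -/
def QD.Gd (D : QD c k) (X m : ℕ) (q1 : ℝ) (l n : ℕ) (f : Fin c → ℝ) : Prop :=
  f = 0 ∨ ∃ (d1 d2 : Fin c → ℝ) (r rho : ℝ), D.Cand X m q1 n true d1 ∧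
    D.Cand X m q1 (n + m) false d2 ∧ |rho| ≤ 1 ∧ |r| * 2 ^ l ≤ 2 ∧ f = r • (d2 - rho • d1)

/-- The signal of one member of a family of candidates: the digits `y`, the pollution `F` (in real
units), the integer vector `S`. -/
structure Sgl (D : QD c k) (X m K W : ℕ) (q1 : ℝ) (l : ℕ) (w : Bool) (δ : Fin c → ℝ)
    (C' loss e0 : ℝ) where
  Γ : Type
  iG : Fintype Γ
  P : Γ → ℝ
  law : IsLaw P
  y : Γ → ℤ
  y_lt : ∀ ω, 0 < P ω → |y ω| < 2 ^ X
  F : Γ → Fin c → ℝ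
  F_true : w = true → ∀ ω, F ω = 0
  S : Γ → Fin c → ℤ
  near : ∀ ω, 0 < P ω → ∀ i,
    |(S ω i : ℝ) / 2 ^ X - ((y ω : ℝ) / 2 ^ X * δ i + F ω i)| ≤ C' / 2 ^ X
  comb : ∃ (n : ℕ) (x : Fin n → Γ → Fin c → ℤ) (s : Fin n → ℤ),
    (∀ i ω, 0 < P ω → x i ω ∈ D.A) ∧ (∀ ω, S ω = ∑ i, s i • x i ω) ∧ ∑ i, |(s i : ℝ)| ≤ C'
  ent : ∀ n, n + m ≤ X → n * Real.log 2 - loss ≤ H P (fun ω => dg X n (y ω))
  bad : ℕ → ℝ
  bad_nn : ∀ n, 0 ≤ bad n
  bad_le : ∀ n, Ex (dbl P (fun ω => dg X n (y ω)))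
    (fun z => ind (¬ D.Gd X m q1 l n (fun i => F z.1 i - F z.2 i))) ≤ bad n
  bad_zero : bad 0 ≤ e0
  bad_sum : ∑ w ∈ Finset.range W, bad (K * w) ≤ e0 * W

attribute [instance] Sgl.iG

open Classical in
/-- The probability that two copies with the same digits are not legal together. -/
noncomputable def bd {α β : Type} [Fintype α] [Fintype β] {e : ℕ} (ma : α → ℝ)
    (adj : α → β → Prop) (z : β → Fin e → ℤ) (o : Fin e) (X : ℕ) (q1 : ℝ)
    (P : (Fin 3 → β) → ℝ) (b : β) (n : ℕ) : ℝ :=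
  Ex (dbl P (dgt z o X n b)) (fun z =>
    ind (¬ q1 ≤ ∑ t, if ∀ i, adj t (z.1 i) ∧ adj t (z.2 i) then ma t else 0))

/-- The conclusion of FRESH. -/
def FrC {α β : Type} [Fintype α] [Fintype β] {e : ℕ} (ma : α → ℝ) (adj : α → β → Prop)
    (z : β → Fin e → ℤ) (o : Fin e) (X m K W : ℕ) (q1 loss e0 : ℝ) {J : Type} (s : J → α)
    (v : ℤ) : Prop :=
  ∃ (b : Fin 3 → β) (P : (Fin 3 → β) → ℝ), IsLaw P ∧
    (∀ i j, adj (s j) (b i)) ∧ (∀ ω, 0 < P ω → ∀ i j, adj (s j) (ω i)) ∧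
    (∀ ω, 0 < P ω → Lk X m z o v b ω) ∧
    (∀ n, n + m ≤ X → n * Real.log 2 - loss ≤ H P (dgt z o X n (b 0))) ∧
    bd ma adj z o X q1 P (b 0) 0 ≤ e0 ∧
    ∑ w ∈ Finset.range W, bd ma adj z o X q1 P (b 0) (K * w) ≤ e0 * W

theorem dg_near {X n : ℕ} {y y' : ℤ} (h : dg X n y = dg X n y') :
    |y - y'| * 2 ^ n ≤ 2 ^ (X + 1) := by
  have h1 := Int.abs_sub_lt_one_of_floor_eq_floor h
  have hX : (0 : ℝ) < 2 ^ X := by positivity
  have hn : (0 : ℝ) < 2 ^ n := by positivity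
  have e : (2 : ℝ) ^ n * ((1 + (y : ℝ) / 2 ^ X) / 2) - 2 ^ n * ((1 + (y' : ℝ) / 2 ^ X) / 2) =
      ((y : ℝ) - y') * 2 ^ n / 2 ^ (X + 1) := by
    rw [pow_succ]
    field_simp
    ring
  rw [e, abs_div, abs_mul, abs_of_pos hn, abs_of_pos (by positivity : (0 : ℝ) < 2 ^ (X + 1)),
    div_lt_one (by positivity)] at h1
  exact_mod_cast h1.le

open Classical in
/-- The weight of the common neighbours. -/
noncomputable def cn {α β J : Type} [Fintype α] (adj : α → β → Prop) (ma : α → ℝ) (s : J → β) :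
    ℝ := ∑ t, if ∀ j, adj t (s j) then ma t else 0

open Classical in
theorem cn_le {α β J : Type} [Fintype α] {adj : α → β → Prop} {ma : α → ℝ} (hm : ∀ t, 0 ≤ ma t)
    {s : J → β} {z z' : Fin 3 → β} (h : ∀ j, (∃ i, s j = z i) ∨ ∃ i, s j = z' i) :
    (∑ t, if ∀ i, adj t (z i) ∧ adj t (z' i) then ma t else 0) ≤ cn adj ma s := by
  unfold cn
  refine Finset.sum_le_sum fun t _ => ?_
  by_cases h1 : ∀ i, adj t (z i) ∧ adj t (z' i)
  · have h2 : ∀ j, adj t (s j) := by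
      intro j
      rcases h j with ⟨i, hi⟩ | ⟨i, hi⟩
      · rw [hi]
        exact (h1 i).1
      · rw [hi]
        exact (h1 i).2
    rw [if_pos h1, if_pos h2]
  · rw [if_neg h1]
    split_ifs
    · exact hm t
    · exact le_rfl

theorem bd_nonneg {α β : Type} [Fintype α] [Fintype β] {e : ℕ} (ma : α → ℝ)
    (adj : α → β → Prop) (z : β → Fin e → ℤ) (o : Fin e) (X : ℕ) (q1 : ℝ)
    {P : (Fin 3 → β) → ℝ} (hP : IsLaw P) (b : β) (n : ℕ) : 0 ≤ bd ma adj z o X q1 P b n := by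
  unfold bd
  exact Ex_nonneg (dbl_nonneg hP.nonneg) fun _ _ => ind_nonneg _

theorem bd_ge {α β : Type} [Fintype α] [Fintype β] {e : ℕ} {ma : α → ℝ} (hm : ∀ t, 0 ≤ ma t)
    {adj : α → β → Prop} {z : β → Fin e → ℤ} {o : Fin e} {X n : ℕ} {q1 : ℝ}
    {P : (Fin 3 → β) → ℝ} (hP : IsLaw P) {b : β} {G : (Fin 3 → β) × (Fin 3 → β) → Prop}
    (h : ∀ w w', 0 < P w → 0 < P w' → dgt z o X n b w = dgt z o X n b w' →
      (∀ s : Fin 2 ⊕ Fin 2 → β, (∀ j, (∃ i, s j = w i) ∨ ∃ i, s j = w' i) → q1 ≤ cn adj ma s) →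
        G (w, w')) :
    Ex (dbl P (dgt z o X n b)) (fun z => ind (¬ G z)) ≤ bd ma adj z o X q1 P b n := by
  unfold bd
  refine Ex_mono (dbl_nonneg hP.nonneg) fun z hz => ?_
  obtain ⟨h1, h2, h3⟩ := (glue_pos_iff hP.nonneg hP.nonneg z).mp hz
  by_cases hG : G z
  · have e : ind (¬ G z) = 0 := by
      unfold ind
      rw [if_neg (not_not.mpr hG)]
    rw [e]
    exact ind_nonneg _
  · have e : ind (¬ G z) = 1 := by
      unfold ind
      rw [if_pos hG]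
    rw [e]
    unfold ind
    rw [if_pos]
    intro hq
    exact hG (h z.1 z.2 h1 h2 h3 fun s hs => hq.trans (cn_le hm hs))

theorem sum12 {M : Type} [AddCommMonoid M] (f : Fin 12 → M) : ∑ i, f i =
    f 0 + f 1 + f 2 + f 3 + f 4 + f 5 + f 6 + f 7 + f 8 + f 9 + f 10 + f 11 := by
  rw [Fin.sum_univ_castSucc, Fin.sum_univ_castSucc, Fin.sum_univ_castSucc,
    Fin.sum_univ_castSucc, Fin.sum_univ_eight]
  rfl

/-- One side, one candidate. -/
theorem side {D : QD c k} {X m K W : ℕ} {q1 loss e0 C : ℝ} (hC : 1 ≤ C) {α β : Type} [Fintype α]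
    [Fintype β] {d e : ℕ} {ma : α → ℝ} (hm : ∀ t, 0 ≤ ma t) {adj : α → β → Prop}
    {x : α → Fin d → ℤ} {u : Fin d} {f : α → Fin c → ℝ} {z : β → Fin e → ℤ} {o : Fin e}
    {g : β → Fin c → ℝ} {h : α → β → Fin c → ℤ} (HR : Rect adj x u f z o g h (4 * C))
    {σ : ℤ} (hσ : σ = 1 ∨ σ = -1) (hA : ∀ a t, adj a t → σ • h a t ∈ D.A)
    (hf : ∀ a i, |f a i| ≤ C) (hg : ∀ t i, |g t i| ≤ C) (hz : ∀ t, 0 ≤ z t o ∧ z t o < 2 ^ X)
    (hcan : ∀ (n : ℕ) (w : Bool) (t t' : Fin 2 → β) (δ : Fin c → ℝ),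
      q1 ≤ cn adj ma (Sum.elim t t') → PairC X m n w z o g t t' δ → D.Cand X m q1 n w δ)
    {a a' : Fin 2 → α} (hF : ∀ v : ℤ, |v| ≤ 2 ^ X →
      FrC ma adj z o X m K W q1 loss e0 (Sum.elim a a') v)
    {l : ℕ} {w : Bool} {δ : Fin c → ℝ} (hp : PairC X m l w x u f a a' δ) :
    Nonempty (Sgl D X m K W q1 l w δ (20 * (2 + 2 ^ m) * C) loss e0) := by
  obtain ⟨hx, hl, hp⟩ := hp
  have hX : (0 : ℝ) < 2 ^ X := by positivity
  have hXz : (0 : ℤ) < 2 ^ X := by positivity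
  have h2m : (0 : ℝ) < 2 ^ m := by positivity
  have hfi : ∀ a i, |inc f a i| ≤ 2 * C := by
    intro a i
    have h1 := hf (a 0) i
    have h2 := hf (a 1) i
    show |f (a 0) i - f (a 1) i| ≤ 2 * C
    rw [abs_le] at h1 h2 ⊢
    constructor <;> linarith [h1.1, h1.2, h2.1, h2.2]
  have hgi : ∀ t i, |inc g t i| ≤ 2 * C := by
    intro a i
    have h1 := hg (a 0) i
    have h2 := hg (a 1) i
    show |g (a 0) i - g (a 1) i| ≤ 2 * C
    rw [abs_le] at h1 h2 ⊢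
    constructor <;> linarith [h1.1, h1.2, h2.1, h2.2]
  have hyl : ∀ (b ω : Fin 3 → β), |z (ω 0) o - z (b 0) o| < 2 ^ X := by
    intro b ω
    have h1 := hz (ω 0)
    have h2 := hz (b 0)
    rw [abs_lt]
    constructor <;> linarith [h1.1, h1.2, h2.1, h2.2]
  have hσa : ∀ r : ℤ, |((r * σ : ℤ) : ℝ)| = |(r : ℝ)| := by
    intro r
    rcases hσ with rfl | rfl
    · simp
    · simp
  have hσσ : σ * σ = 1 := by
    rcases hσ with rfl | rfl <;> norm_num
  have hC20 : (0 : ℝ) ≤ 20 * (2 + 2 ^ m) * C := by positivity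
  rcases hp with ⟨rfl, hp1, hδ⟩ | ⟨rfl, v, hv, hp1, hδ⟩
  · obtain ⟨b, P, hP, hb, hω, hL, hent, h0, hs⟩ := hF 0 (by simp)
    have ad : ∀ ω, 0 < P ω → ∀ i, (∀ k, adj (a i) (ω k) ∧ adj (a i) (b k)) ∧
        ∀ k, adj (a' i) (ω k) ∧ adj (a' i) (b k) := fun ω h i =>
      ⟨fun k => ⟨hω ω h k (Sum.inl i), hb k (Sum.inl i)⟩,
        fun k => ⟨hω ω h k (Sum.inr i), hb k (Sum.inr i)⟩⟩
    refine ⟨{
      Γ := Fin 3 → β
      iG := inferInstance
      P := P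
      law := hP
      y := fun ω => z (ω 0) o - z (b 0) o
      y_lt := fun ω _ => hyl b ω
      F := fun _ => 0
      F_true := fun _ _ => rfl
      S := fun ω => sT h m a a' b ω
      near := ?_
      comb := ?_
      ent := hent
      bad := bd ma adj z o X q1 P (b 0)
      bad_nn := bd_nonneg ma adj z o X q1 hP (b 0)
      bad_le := ?_
      bad_zero := h0
      bad_sum := hs }⟩
    · intro ω hPω i
      have k1 : |(sT h m a a' b ω i : ℝ) - ((z (ω 0) o - z (b 0) o : ℤ) : ℝ) *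
          (inc f a - (2 : ℝ) ^ m • inc f a') i| ≤ (1 + 2 ^ m) * (4 * C) := by
        refine sT_near HR ?_ ?_ hx hp1 (fun j hj => (hL ω hPω).1 0 j hj) i
        · intro i j
          fin_cases j
          · exact ((ad ω hPω i).1 0).1
          · exact ((ad ω hPω i).1 0).2
        · intro i j
          fin_cases j
          · exact ((ad ω hPω i).2 0).1
          · exact ((ad ω hPω i).2 0).2
      rw [← hδ] at k1
      have e1 : (sT h m a a' b ω i : ℝ) / 2 ^ X - (((z (ω 0) o - z (b 0) o : ℤ) : ℝ) / 2 ^ X * δ i +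
          (0 : Fin c → ℝ) i) = ((sT h m a a' b ω i : ℝ) -
            ((z (ω 0) o - z (b 0) o : ℤ) : ℝ) * δ i) / 2 ^ X := by
        rw [Pi.zero_apply]
        ring
      show |(sT h m a a' b ω i : ℝ) / 2 ^ X - (((z (ω 0) o - z (b 0) o : ℤ) : ℝ) / 2 ^ X * δ i +
          (0 : Fin c → ℝ) i)| ≤ _
      rw [e1, abs_div, abs_of_pos hX]
      refine div_le_div_of_nonneg_right (k1.trans ?_) hX.le
      nlinarith
    · refine ⟨8, fun i ω => ![σ • h (a' 0) (ω 0), σ • h (a' 1) (ω 0), σ • h (a' 0) (b 0),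
        σ • h (a' 1) (b 0), σ • h (a 0) (ω 0), σ • h (a 1) (ω 0), σ • h (a 0) (b 0),
        σ • h (a 1) (b 0)] i, fun i => ![2 ^ m, -2 ^ m, -2 ^ m, 2 ^ m, -1, 1, 1, -1] i * σ,
        ?_, ?_, ?_⟩
      · intro i ω hPω
        have t := ad ω hPω
        fin_cases i
        · exact hA _ _ ((t 0).2 0).1
        · exact hA _ _ ((t 1).2 0).1
        · exact hA _ _ ((t 0).2 0).2
        · exact hA _ _ ((t 1).2 0).2
        · exact hA _ _ ((t 0).1 0).1
        · exact hA _ _ ((t 1).1 0).1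
        · exact hA _ _ ((t 0).1 0).2
        · exact hA _ _ ((t 1).1 0).2
      · intro ω
        have e : ∀ (r : ℤ) (y : Fin c → ℤ), (r * σ) • σ • y = r • y := by
          intro r y
          rw [smul_smul, mul_assoc, hσσ, mul_one]
        show sT h m a a' b ω = _
        simp only [Fin.sum_univ_eight]
        simp only [Matrix.cons_val, e]
        unfold sT rect
        simp only [Matrix.cons_val_zero, Matrix.cons_val_one]
        module
      · simp only [hσa]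
        rw [Fin.sum_univ_eight]
        simp only [Matrix.cons_val]
        push_cast
        simp only [abs_neg, abs_one, abs_of_pos h2m]
        nlinarith
    · intro n
      refine bd_ge hm hP fun _ _ _ _ _ _ => Or.inl ?_
      funext i
      simp
  · obtain ⟨N, hN⟩ : ∃ N : ℤ, N = 2 ^ m * v / 2 ^ X := ⟨_, rfl⟩
    obtain ⟨v', hv'⟩ : ∃ v' : ℤ, v' = 2 ^ m * v % 2 ^ X := ⟨_, rfl⟩
    have hdm : 2 ^ m * v = N * 2 ^ X + v' := by
      rw [hN, hv']
      have := Int.emod_add_mul_ediv (2 ^ m * v) (2 ^ X)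
      linarith
    have h0v : 0 ≤ v' := by
      rw [hv']
      exact Int.emod_nonneg _ hXz.ne'
    have hv1 : v' < 2 ^ X := by
      rw [hv']
      exact Int.emod_lt_of_pos _ hXz
    have hv2 : |v'| ≤ 2 ^ X := by
      rw [abs_of_nonneg h0v]
      exact hv1.le
    have h2mz : (0 : ℤ) < 2 ^ m := by positivity
    have hNa : |N| ≤ 2 ^ m := by
      have hva := abs_le.mp hv
      rw [abs_le]
      constructor
      · have : -2 ^ m * 2 ^ X ≤ N * 2 ^ X + v' := by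
          rw [← hdm]
          nlinarith
        by_contra hcon
        have hN1 : N + 1 ≤ -2 ^ m := by omega
        nlinarith
      · have : N * 2 ^ X + v' ≤ 2 ^ m * 2 ^ X := by
          rw [← hdm]
          nlinarith
        by_contra hcon
        have hN1 : 2 ^ m + 1 ≤ N := by omega
        nlinarith
    have hNr : |(N : ℝ)| ≤ 2 ^ m := by exact_mod_cast hNa
    have hvr : |(v : ℝ) / 2 ^ X| ≤ 1 := by
      rw [abs_div, abs_of_pos hX, div_le_one hX]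
      exact_mod_cast hv
    obtain ⟨b, P, hP, hb, hω, hL, hent, h0, hs⟩ := hF v' hv2
    have ad : ∀ ω, 0 < P ω → ∀ i, (∀ k, adj (a i) (ω k) ∧ adj (a i) (b k)) ∧
        ∀ k, adj (a' i) (ω k) ∧ adj (a' i) (b k) := fun ω h i =>
      ⟨fun k => ⟨hω ω h k (Sum.inl i), hb k (Sum.inl i)⟩,
        fun k => ⟨hω ω h k (Sum.inr i), hb k (Sum.inr i)⟩⟩
    refine ⟨{
      Γ := Fin 3 → β
      iG := inferInstance
      P := P
      law := hP
      y := fun ω => z (ω 0) o - z (b 0) o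
      y_lt := fun ω _ => hyl b ω
      F := fun ω => (((inc x a u : ℤ) : ℝ) / 2 ^ X) • pD g N ((v : ℝ) / 2 ^ X) b ω
      F_true := fun hc => absurd hc (by decide)
      S := fun ω => sF h N a a' b ω
      near := ?_
      comb := ?_
      ent := hent
      bad := bd ma adj z o X q1 P (b 0)
      bad_nn := bd_nonneg ma adj z o X q1 hP (b 0)
      bad_le := ?_
      bad_zero := h0
      bad_sum := hs }⟩
    · intro ω hPω i
      have k1 := sF_near HR (fun i k => (ad ω hPω i).1 k) (fun i k => (ad ω hPω i).2 k) hx hdm hNa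
        hp1 (hL ω hPω) hfi hgi i
      rw [← hδ] at k1
      have e1 : (sF h N a a' b ω i : ℝ) / 2 ^ X - (((z (ω 0) o - z (b 0) o : ℤ) : ℝ) / 2 ^ X * δ i +
          ((((inc x a u : ℤ) : ℝ) / 2 ^ X) • pD g N ((v : ℝ) / 2 ^ X) b ω) i) =
          ((sF h N a a' b ω i : ℝ) - (((z (ω 0) o - z (b 0) o : ℤ) : ℝ) * δ i +
            ((inc x a u : ℤ) : ℝ) * pD g N ((v : ℝ) / 2 ^ X) b ω i)) / 2 ^ X := by
        rw [Pi.smul_apply, smul_eq_mul]
        ring
      show |(sF h N a a' b ω i : ℝ) / 2 ^ X - (((z (ω 0) o - z (b 0) o : ℤ) : ℝ) / 2 ^ X * δ i +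
          ((((inc x a u : ℤ) : ℝ) / 2 ^ X) • pD g N ((v : ℝ) / 2 ^ X) b ω) i)| ≤ _
      rw [e1, abs_div, abs_of_pos hX]
      refine div_le_div_of_nonneg_right (k1.trans ?_) hX.le
      nlinarith
    · refine ⟨12, fun i ω => ![σ • h (a 0) (ω 1), σ • h (a 1) (ω 1), σ • h (a 0) (b 1),
        σ • h (a 1) (b 1), σ • h (a 0) (ω 2), σ • h (a 1) (ω 2), σ • h (a 0) (b 2),
        σ • h (a 1) (b 2), σ • h (a' 0) (ω 0), σ • h (a' 1) (ω 0), σ • h (a' 0) (b 0),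
        σ • h (a' 1) (b 0)] i,
        fun i => ![N, -N, -N, N, 1, -1, -1, 1, -1, 1, 1, -1] i * σ, ?_, ?_, ?_⟩
      · intro i ω hPω
        have t := ad ω hPω
        fin_cases i
        · exact hA _ _ ((t 0).1 1).1
        · exact hA _ _ ((t 1).1 1).1
        · exact hA _ _ ((t 0).1 1).2
        · exact hA _ _ ((t 1).1 1).2
        · exact hA _ _ ((t 0).1 2).1
        · exact hA _ _ ((t 1).1 2).1
        · exact hA _ _ ((t 0).1 2).2
        · exact hA _ _ ((t 1).1 2).2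
        · exact hA _ _ ((t 0).2 0).1
        · exact hA _ _ ((t 1).2 0).1
        · exact hA _ _ ((t 0).2 0).2
        · exact hA _ _ ((t 1).2 0).2
      · intro ω
        have e : ∀ (r : ℤ) (y : Fin c → ℤ), (r * σ) • σ • y = r • y := by
          intro r y
          rw [smul_smul, mul_assoc, hσσ, mul_one]
        show sF h N a a' b ω = _
        rw [sum12]
        simp only [Matrix.cons_val, e]
        unfold sF rect
        simp only [Matrix.cons_val_zero, Matrix.cons_val_one]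
        module
      · simp only [hσa]
        rw [sum12]
        simp only [Matrix.cons_val]
        push_cast
        simp only [abs_neg, abs_one]
        nlinarith
    · intro n
      refine bd_ge hm hP fun w w' hw hw' hd hq => Or.inr ?_
      have hn : |z (w 0) o - z (w' 0) o| * 2 ^ n ≤ 2 ^ (X + 1) := by
        have := dg_near (X := X) (n := n) (y := z (w 0) o - z (b 0) o)
          (y' := z (w' 0) o - z (b 0) o) hd
        simpa using this
      refine ⟨inc g ![w 0, w' 0] - (2 : ℝ) ^ m • inc g ![w 1, w' 1],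
        inc g ![w 2, w' 2] - ((v' : ℝ) / 2 ^ X) • inc g ![w 1, w' 1],
        ((inc x a u : ℤ) : ℝ) / 2 ^ X, (v : ℝ) / 2 ^ X,
        hcan _ _ _ _ _ (hq _ ?_) (pair_true (hL w hw) (hL w' hw') hn),
        hcan _ _ _ _ _ (hq _ ?_) (pair_false hv2 (hL w hw) (hL w' hw') hn), hvr, ?_, ?_⟩
      · rintro (j | j)
        · fin_cases j
          · exact Or.inl ⟨0, rfl⟩
          · exact Or.inr ⟨0, rfl⟩
        · fin_cases j
          · exact Or.inl ⟨1, rfl⟩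
          · exact Or.inr ⟨1, rfl⟩
      · rintro (j | j)
        · fin_cases j
          · exact Or.inl ⟨1, rfl⟩
          · exact Or.inr ⟨1, rfl⟩
        · fin_cases j
          · exact Or.inl ⟨2, rfl⟩
          · exact Or.inr ⟨2, rfl⟩
      · rw [abs_div, abs_of_pos hX, div_mul_eq_mul_div, div_le_iff₀ hX]
        have : (|((inc x a u : ℤ) : ℝ)| * 2 ^ l : ℝ) ≤ 2 ^ (X + 1) := by exact_mod_cast hl
        rw [pow_succ] at this
        linarith
      · rw [← pD_sub hdm b w w']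
        funext i
        simp only [Pi.smul_apply, smul_eq_mul]
        ring

/-- The rectangles of `g`. -/
theorem g_rect {D : QD c k} {X : ℕ} {C q : ℝ} (hD : D.Ok X C q) {a : Fin 2 → D.TT}
    {t : Fin 2 → D.VV} (hat : ∀ i j, D.adj (a i) (t j)) {u : Fin k}
    (hy : ∀ j, j ≠ u → inc D.y t j = 0) (i : Fin c) :
    |((D.g (a 0) (t 0) i - D.g (a 1) (t 0) i - D.g (a 0) (t 1) i + D.g (a 1) (t 1) i : ℤ) : ℝ) -
      ((D.tau (a 0) - D.tau (a 1) : ℤ) * inc D.be t i -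
        (inc D.y t u : ℤ) * inc (fun t => D.E t u) a i)| ≤ 4 * C := by
  have h00 := hD.g_eq _ _ (hat 0 0) i
  have h10 := hD.g_eq _ _ (hat 1 0) i
  have h01 := hD.g_eq _ _ (hat 0 1) i
  have h11 := hD.g_eq _ _ (hat 1 1) i
  have hs : ∑ u', (D.E (a 0) u' i - D.E (a 1) u' i) * ((D.y (t 0) u' : ℝ) - D.y (t 1) u') =
      (D.E (a 0) u i - D.E (a 1) u i) * ((D.y (t 0) u : ℝ) - D.y (t 1) u) := by
    refine Finset.sum_eq_single u (fun j _ hj => ?_) fun h => absurd (Finset.mem_univ _) h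
    have h1 : D.y (t 0) j - D.y (t 1) j = 0 := hy j hj
    have h2 : (D.y (t 0) j : ℝ) - D.y (t 1) j = 0 := by exact_mod_cast h1
    rw [h2, mul_zero]
  have hs2 : ∑ u', (D.E (a 0) u' i - D.E (a 1) u' i) * ((D.y (t 0) u' : ℝ) - D.y (t 1) u') =
      ∑ u', D.E (a 0) u' i * D.y (t 0) u' - ∑ u', D.E (a 1) u' i * D.y (t 0) u' -
        ∑ u', D.E (a 0) u' i * D.y (t 1) u' + ∑ u', D.E (a 1) u' i * D.y (t 1) u' := by
    rw [← Finset.sum_sub_distrib, ← Finset.sum_sub_distrib, ← Finset.sum_add_distrib]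
    refine Finset.sum_congr rfl fun j _ => ?_
    ring
  rw [hs2] at hs
  have e2 : (inc D.y t u : ℤ) = D.y (t 0) u - D.y (t 1) u := rfl
  have e3 : inc (fun t => D.E t u) a i = D.E (a 0) u i - D.E (a 1) u i := rfl
  have e4 : inc D.be t i = D.be (t 0) i - D.be (t 1) i := rfl
  rw [e2, e3, e4]
  push_cast
  rw [abs_le] at h00 h10 h01 h11 ⊢
  constructor <;> nlinarith [h00.1, h00.2, h10.1, h10.2, h01.1, h01.2, h11.1, h11.2]

theorem rect_T {D : QD c k} {X : ℕ} {C q : ℝ} (hD : D.Ok X C q) (u : Fin k) :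
    Rect D.adj (fun t (_ : Fin 1) => D.tau t) 0 (fun t => D.E t u) D.y u D.be
      (fun t v => D.g t v - D.ref t) (4 * C) := by
  intro a t hat hx hy i
  have h := g_rect hD hat hy i
  have e : (rect (fun t v => D.g t v - D.ref t) a t i : ℤ) =
      D.g (a 0) (t 0) i - D.g (a 1) (t 0) i - D.g (a 0) (t 1) i + D.g (a 1) (t 1) i := by
    unfold rect
    simp only [Pi.add_apply, Pi.sub_apply]
    ring
  rw [e]
  exact h

theorem rect_V {D : QD c k} {X : ℕ} {C q : ℝ} (hD : D.Ok X C q) (u : Fin k) :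
    Rect (fun v t => D.adj t v) D.y u D.be (fun t (_ : Fin 1) => D.tau t) 0 (fun t => D.E t u)
      (fun v t => -(D.g t v - D.ref t)) (4 * C) := by
  intro a t hat hy hx i
  have h := g_rect (a := t) (t := a) hD (fun i j => hat j i) hy i
  have e : (rect (fun v t => -(D.g t v - D.ref t)) a t i : ℤ) =
      -(D.g (t 0) (a 0) i - D.g (t 1) (a 0) i - D.g (t 0) (a 1) i + D.g (t 1) (a 1) i) := by
    unfold rect
    simp only [Pi.add_apply, Pi.sub_apply, Pi.neg_apply]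
    ring
  have e1 : (inc (fun t (_ : Fin 1) => D.tau t) t 0 : ℤ) = D.tau (t 0) - D.tau (t 1) := rfl
  rw [e, e1, ← abs_neg]
  refine le_of_eq_of_le ?_ h
  congr 1
  push_cast
  ring

/-- The trivial member. -/
theorem triv_sgl (D : QD c k) (X m K W : ℕ) (q1 : ℝ) {δ : Fin c → ℝ}
    (hδ : ∀ i, |δ i| ≤ ((2 : ℝ) ^ X)⁻¹) {C' loss e0 : ℝ} (hC : 1 ≤ C') (hl : 3 ≤ loss)
    (he : 0 ≤ e0) : Nonempty (Sgl D X m K W q1 0 true δ C' loss e0) := by
  have hX : (0 : ℝ) < 2 ^ X := by positivity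
  have : Nonempty (Fin (2 ^ X)) := ⟨⟨0, by positivity⟩⟩
  have hP : IsLaw (fun _ : Fin (2 ^ X) => (Fintype.card (Fin (2 ^ X)) : ℝ)⁻¹) := by
    refine ⟨fun _ => by positivity, ?_⟩
    rw [Finset.sum_const, Finset.card_univ, nsmul_eq_mul, mul_inv_cancel₀]
    simp
  refine ⟨{
    Γ := Fin (2 ^ X)
    iG := inferInstance
    P := fun _ => (Fintype.card (Fin (2 ^ X)) : ℝ)⁻¹
    law := hP
    y := fun ω => ((ω : ℕ) : ℤ)
    y_lt := ?_
    F := fun _ => 0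
    F_true := fun _ _ => rfl
    S := fun _ => 0
    near := ?_
    comb := ⟨0, fun i => i.elim0, fun i => i.elim0, fun i => i.elim0, fun ω => by simp, by
      simp
      linarith⟩
    ent := ?_
    bad := fun _ => 0
    bad_nn := fun _ => le_rfl
    bad_le := ?_
    bad_zero := he
    bad_sum := by
      simp
      positivity }⟩
  · intro ω _
    rw [abs_of_nonneg (by positivity)]
    exact_mod_cast ω.2
  · intro ω _ i
    have hy : (((ω : ℕ) : ℤ) : ℝ) < 2 ^ X := by exact_mod_cast ω.2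
    have hy0 : (0 : ℝ) ≤ (((ω : ℕ) : ℤ) : ℝ) := by positivity
    have e : (((0 : Fin c → ℤ) i : ℤ) : ℝ) / 2 ^ X - ((((ω : ℕ) : ℤ) : ℝ) / 2 ^ X * δ i +
        (0 : Fin c → ℝ) i) = -((((ω : ℕ) : ℤ) : ℝ) / 2 ^ X * δ i) := by
      simp
    show |(((0 : Fin c → ℤ) i : ℤ) : ℝ) / 2 ^ X - ((((ω : ℕ) : ℤ) : ℝ) / 2 ^ X * δ i +
        (0 : Fin c → ℝ) i)| ≤ _
    rw [e, abs_neg, abs_mul, abs_of_nonneg (by positivity)]
    have h1 : (((ω : ℕ) : ℤ) : ℝ) / 2 ^ X ≤ 1 := by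
      rw [div_le_one hX]
      exact hy.le
    calc (((ω : ℕ) : ℤ) : ℝ) / 2 ^ X * |δ i| ≤ 1 * ((2 : ℝ) ^ X)⁻¹ :=
          mul_le_mul h1 (hδ i) (abs_nonneg _) zero_le_one
      _ ≤ C' / 2 ^ X := by
          rw [one_mul, div_eq_mul_inv]
          exact le_mul_of_one_le_left (by positivity) hC
  · intro n hn
    have h0 : H (fun _ : Fin (2 ^ X) => (Fintype.card (Fin (2 ^ X)) : ℝ)⁻¹)
        (fun ω => ((ω : ℕ) : ℤ)) = X * Real.log 2 := by
      rw [H_uniform]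
      · rw [Fintype.card_fin]
        push_cast
        rw [Real.log_pow]
      · intro a b hab
        have : ((a : ℕ) : ℤ) = ((b : ℕ) : ℤ) := hab
        exact Fin.ext (by exact_mod_cast this)
    have h1 := CH_le_int hP.nonneg hP.sum_one (fun ω : Fin (2 ^ X) => ((ω : ℕ) : ℤ))
      (fun ω : Fin (2 ^ X) => dg X n ((ω : ℕ) : ℤ)) (fun _ => (2 : ℝ) ^ (X + 1 - n)) (by
        intro ω ω' _ _ h
        have h2 := dg_near h
        have h3 : ((|((ω : ℕ) : ℤ) - ((ω' : ℕ) : ℤ)| : ℤ) : ℝ) * 2 ^ n ≤ 2 ^ (X + 1 - n) * 2 ^ n := by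
          rw [← pow_add, show X + 1 - n + n = X + 1 by omega]
          exact_mod_cast h2
        have h4 := le_of_mul_le_mul_right h3 (by positivity)
        rwa [Int.cast_abs] at h4)
    rw [Ex_const hP.sum_one] at h1
    have h2 : H (fun _ : Fin (2 ^ X) => (Fintype.card (Fin (2 ^ X)) : ℝ)⁻¹)
        (fun ω => ((ω : ℕ) : ℤ)) ≤ H (fun _ : Fin (2 ^ X) => (Fintype.card (Fin (2 ^ X)) : ℝ)⁻¹)
        (fun ω => (((ω : ℕ) : ℤ), dg X n ((ω : ℕ) : ℤ))) :=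
      H_mono hP.nonneg fun ω ω' _ _ h => (Prod.mk.inj h).1
    have h3 : Real.log (2 * (2 : ℝ) ^ (X + 1 - n) + 1) ≤ (X + 3 - n : ℝ) * Real.log 2 := by
      have e : ((X + 3 - n : ℕ) : ℝ) = (X + 3 - n : ℝ) := by
        rw [Nat.cast_sub (by omega)]
        push_cast
        ring
      rw [← e, ← Real.log_pow]
      refine Real.log_le_log (by positivity) ?_
      rw [show X + 3 - n = (X + 1 - n) + 2 by omega, pow_add]
      have : (1 : ℝ) ≤ 2 ^ (X + 1 - n) := one_le_pow₀ (by norm_num)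
      nlinarith
    unfold CH at h1
    have h4 : Real.log 2 < 1 := by
      have := Real.log_two_lt_d9
      linarith
    have h5 : 0 < Real.log 2 := Real.log_pos (by norm_num)
    show n * Real.log 2 - loss ≤ H _ (fun ω : Fin (2 ^ X) => dg X n ((ω : ℕ) : ℤ))
    nlinarith
  · intro n
    have : ∀ z : Fin (2 ^ X) × Fin (2 ^ X), ind (¬ D.Gd X m q1 0 n (fun i =>
        (0 : Fin c → ℝ) i - (0 : Fin c → ℝ) i)) = 0 := by
      intro z
      unfold ind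
      rw [if_neg]
      rw [not_not]
      exact Or.inl (by
        funext i
        simp)
    show Ex _ (fun z : Fin (2 ^ X) × Fin (2 ^ X) => ind (¬ D.Gd X m q1 0 n (fun i =>
        (0 : Fin c → ℝ) i - (0 : Fin c → ℝ) i))) ≤ 0
    unfold Ex
    rw [Finset.sum_eq_zero]
    intro z _
    rw [this z, mul_zero]

theorem FrC.mono {α β : Type} [Fintype α] [Fintype β] {e : ℕ} {ma : α → ℝ}
    {adj : α → β → Prop} {z : β → Fin e → ℤ} {o : Fin e} {X m K W : ℕ} {q1 loss loss' e0 e0' : ℝ}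
    {J : Type} {s : J → α} {v : ℤ} (h : FrC ma adj z o X m K W q1 loss e0 s v)
    (hl : loss ≤ loss') (he : e0 ≤ e0') : FrC ma adj z o X m K W q1 loss' e0' s v := by
  obtain ⟨b, P, h1, h2, h3, h4, h5, h6, h7⟩ := h
  refine ⟨b, P, h1, h2, h3, h4, fun n hn => ?_, h6.trans he, h7.trans ?_⟩
  · have := h5 n hn
    linarith
  · exact mul_le_mul_of_nonneg_right he (by positivity)

/-- **The signals exist**: for every candidate, of either side and either class, and for the trivial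
member. -/
theorem sgl_exists (hF : FreshStmt) : ∃ C4 : ℝ, 0 ≤ C4 ∧ ∀ (c k m K : ℕ) (C C1 : ℝ), 0 < K →
    1 ≤ C → 1 ≤ C1 → ∃ C3 : ℝ, 0 ≤ C3 ∧ ∀ (D : QD c k) (X : ℕ) (q : ℝ), 0 < q → q ≤ 1 / 2 →
    D.Ok X C q → ∀ W : ℕ, K * W + m ≤ X → ∀ (l : ℕ) (w : Bool) (δ : Fin c → ℝ),
      (D.Cand X m (q ^ C1) l w δ ∨ (l = 0 ∧ w = true ∧ ∀ i, |δ i| ≤ ((2 : ℝ) ^ X)⁻¹)) →
      Nonempty (Sgl D X m K W (q ^ C1) l w δ (20 * (2 + 2 ^ m) * C)
        (C3 * (1 + Real.log (1 / q))) (C4 / C1)) := by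
  obtain ⟨C4, h⟩ := hF
  refine ⟨max C4 0, le_max_right _ _, fun c k m K C C1 hK hC hC1 => ?_⟩
  obtain ⟨Ck, hk⟩ := h k m K C C1 hK hC hC1
  obtain ⟨Cl, hl1⟩ := h 1 m K C C1 hK hC hC1
  refine ⟨max (max Ck Cl) 3, le_max_of_le_right (by norm_num), ?_⟩
  intro D X q hq hq2 hD W hW l w δ hcand
  have hlog : 0 ≤ Real.log (1 / q) := Real.log_nonneg (by
    rw [le_div_iff₀ hq]
    linarith)
  have hlog1 : 0 ≤ 1 + Real.log (1 / q) := by linarith
  have e0 : C4 / C1 ≤ max C4 0 / C1 :=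
    div_le_div_of_nonneg_right (le_max_left _ _) (by linarith)
  have ek : Ck * (1 + Real.log (1 / q)) ≤ max (max Ck Cl) 3 * (1 + Real.log (1 / q)) :=
    mul_le_mul_of_nonneg_right ((le_max_left _ _).trans (le_max_left _ _)) hlog1
  have el : Cl * (1 + Real.log (1 / q)) ≤ max (max Ck Cl) 3 * (1 + Real.log (1 / q)) :=
    mul_le_mul_of_nonneg_right ((le_max_right _ _).trans (le_max_left _ _)) hlog1
  rcases hcand with ⟨u, ⟨a, a', hq1, hp⟩ | ⟨a, a', hq1, hp⟩⟩ | ⟨rfl, rfl, hδ⟩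
  · refine side hC (α := D.TT) (β := D.VV) (ma := D.mu) hD.mu_nn (rect_T hD u) (σ := 1)
      (Or.inl rfl) (fun t v htv => ?_) (fun t i => hD.E_b t u i) (fun v i => hD.be_b v i)
      (fun v => hD.y_r v u) (fun n w t t' δ h1 h2 => ⟨u, Or.inr ⟨t, t', h1, h2⟩⟩)
      (a := a) (a' := a') (fun v hv => ?_) hp
    · rw [one_smul]
      exact hD.g_A t v htv
    · refine FrC.mono ?_ ek e0
      refine hk D.VV D.TT _ _ D.vp D.mu hD.vp_nn hD.vp_le hD.mu_nn hD.mu_le D.adj D.y u X q hq hq2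
        hD.vp_sp hD.y_r _ (Sum.elim a a') hq1 (fun v => ?_) v hv W hW
      have h1 := hD.deg_V v
      unfold QD.cnT at h1
      refine h1.trans (le_of_eq (Finset.sum_congr rfl fun t _ => ?_))
      by_cases h2 : D.adj t v
      · rw [if_pos h2, if_pos fun _ => h2]
      · rw [if_neg h2, if_neg fun h3 => h2 (h3 ())]
  · refine side hC (α := D.VV) (β := D.TT) (ma := D.vp) hD.vp_nn (rect_V hD u) (σ := -1)
      (Or.inr rfl) (fun v t htv => ?_) (fun v i => hD.be_b v i) (fun t i => hD.E_b t u i)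
      (fun t => hD.tau_r t) (fun n w t t' δ h1 h2 => ⟨u, Or.inl ⟨t, t', h1, h2⟩⟩)
      (a := a) (a' := a') (fun v hv => ?_) hp
    · rw [neg_one_smul, neg_neg]
      exact hD.g_A t v htv
    · refine FrC.mono ?_ el e0
      refine hl1 D.TT D.VV _ _ D.mu D.vp hD.mu_nn hD.mu_le hD.vp_nn hD.vp_le
        (fun v t => D.adj t v) (fun t _ => D.tau t) 0 X q hq hq2 (fun a => ?_)
        (fun t _ => hD.tau_r t) _ (Sum.elim a a') hq1 (fun t => ?_) v hv W hW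
      · rw [one_mul]
        refine le_trans (le_of_eq (Finset.sum_congr rfl fun t _ => ?_)) (hD.mu_sp (a 0))
        by_cases h2 : D.tau t = a 0
        · rw [if_pos h2, if_pos]
          funext j
          rw [Subsingleton.elim j 0, h2]
        · rw [if_neg h2, if_neg fun h3 => h2 (congrFun h3 0)]
      · have h1 := hD.deg_T t
        unfold QD.cnV at h1
        refine h1.trans (le_of_eq (Finset.sum_congr rfl fun v _ => ?_))
        by_cases h2 : D.adj t v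
        · rw [if_pos h2, if_pos fun _ => h2]
        · rw [if_neg h2, if_neg fun h3 => h2 (h3 ())]
  · refine triv_sgl D X m K W _ hδ ?_ ?_ (div_nonneg (le_max_right _ _) (by linarith))
    · have : (1 : ℝ) ≤ 2 ^ m := one_le_pow₀ (by norm_num)
      nlinarith
    · have : (3 : ℝ) ≤ max (max Ck Cl) 3 := le_max_right _ _
      nlinarith

end Pool.QC
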