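import Mathlib

/-!
# Signals of the candidates (row 366, K_COMB (B-ii))

Two sides `A`, `B` with integer positions, rests and values in `R^c`, and an array `h a x` in `Z^c`
whose rectangles are `pos12 val12' - pos12' val12` up to `C` (`Rect`).

* `addS`, `realS`: slopes of the ADD and REAL quadruples; `IsAdd`, `IsReal`;
* `sgA`, `sgR`: the signals, integer combinations of entries of the array; `sgA_near`, `sgR_near`:
  their ideal values; `sgA_sum`, `sgR_sum`: the explicit combinations;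
* `pol_add`, `pol_real`, `pol_id`: two samples with the same relations and the same prefix form an ADD
  and a REAL quadruple, and the difference of the pollutions is a combination of their slopes;
* `pol_bound`: the bound in the coordinates of an optimal basis.
-/

set_option autoImplicit false
set_option linter.unusedSectionVars false
set_option linter.unusedVariables false

namespace Pool.SGN30

open Finset

variable {c : ℕ} {A B K L : Type}

/-- A side: positions, rests, values. -/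
structure Sd (c : ℕ) (A K : Type) where
  /-- the position -/
  pos : A → ℤ
  /-- what has to be equal -/
  rest : A → K
  /-- the value -/
  val : A → Fin c → ℝ

/-- Difference of positions. -/
def Sd.dp (S : Sd c A K) (a b : A) : ℝ := (S.pos a : ℝ) - S.pos b

/-- Difference of values. -/
def Sd.dv (S : Sd c A K) (a b : A) (i : Fin c) : ℝ := S.val a i - S.val b i

/-- A rectangle of the array. -/
def rect (h : A → B → Fin c → ℤ) (a b : A) (x y : B) : Fin c → ℤ :=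
  h a x - h b x - h a y + h b y

/-- The array is `pos ∧ val` up to `C`. -/
def Rect (S : Sd c A K) (T : Sd c B L) (h : A → B → Fin c → ℤ) (C : ℝ) : Prop :=
  ∀ a b x y, S.rest a = S.rest b → T.rest x = T.rest y → ∀ i,
    |(rect h a b x y i : ℝ) - (S.dp a b * T.dv x y i - T.dp x y * S.dv a b i)| ≤ C

/-- Exchange of the sides. -/
theorem Rect.symm {S : Sd c A K} {T : Sd c B L} {h : A → B → Fin c → ℤ} {C : ℝ}
    (H : Rect S T h C) : Rect T S (fun x a => -h a x) C := by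
  intro x y a b hx ha i
  have k := H a b x y ha hx i
  have e : ((rect (fun x a => -h a x) x y a b i : ℤ) : ℝ) = -((rect h a b x y i : ℤ) : ℝ) := by
    unfold rect
    simp only [Pi.add_apply, Pi.sub_apply, Pi.neg_apply]
    push_cast
    ring
  rw [e, abs_sub_comm]
  rw [abs_sub_comm] at k
  have e2 : T.dp x y * S.dv a b i - S.dp a b * T.dv x y i - -((rect h a b x y i : ℤ) : ℝ) =
      -(S.dp a b * T.dv x y i - T.dp x y * S.dv a b i - ((rect h a b x y i : ℤ) : ℝ)) := by ring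
  rw [e2, abs_neg]
  exact k

/-! ### Quadruples -/

/-- An ADD quadruple of nominal depth `q`. -/
def IsAdd (S : Sd c A K) (X p q : ℕ) (a : Fin 4 → A) : Prop :=
  S.pos (a 0) - S.pos (a 1) = 2 ^ p * (S.pos (a 2) - S.pos (a 3)) ∧
    |S.pos (a 0) - S.pos (a 1)| * 2 ^ q ≤ 2 ^ X ∧
    S.rest (a 0) = S.rest (a 1) ∧ S.rest (a 2) = S.rest (a 3)

/-- A REAL quadruple of ratio `v` and nominal depth `q`. -/
def IsReal (S : Sd c A K) (X q : ℕ) (v : ℝ) (a : Fin 4 → A) : Prop :=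
  |S.dp (a 2) (a 3) - v * S.dp (a 0) (a 1)| ≤ 4 ∧
    |S.pos (a 0) - S.pos (a 1)| * 2 ^ q ≤ 2 ^ X ∧
    S.rest (a 0) = S.rest (a 1) ∧ S.rest (a 2) = S.rest (a 3)

/-- The slope of an ADD quadruple. -/
def addS (S : Sd c A K) (p q : ℕ) (a : Fin 4 → A) (i : Fin c) : ℝ :=
  2 ^ q * (S.dv (a 0) (a 1) i - 2 ^ p * S.dv (a 2) (a 3) i)

/-- The slope of a REAL quadruple. -/
def realS (S : Sd c A K) (q : ℕ) (v : ℝ) (a : Fin 4 → A) (i : Fin c) : ℝ :=
  2 ^ q * (S.dv (a 2) (a 3) i - v * S.dv (a 0) (a 1) i)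

/-! ### Signals -/

/-- The signal of an ADD quadruple; `y` is the fixed second sample. -/
def sgA (h : A → B → Fin c → ℤ) (p : ℕ) (a : Fin 4 → A) (y x : Fin 3 → B) : Fin c → ℤ :=
  rect h (a 0) (a 1) (x 0) (y 0) - (2 ^ p : ℤ) • rect h (a 2) (a 3) (x 0) (y 0)

/-- The signal of a REAL quadruple of ratio `(N + v') / 2 ^ p`. -/
def sgR (h : A → B → Fin c → ℤ) (N : ℤ) (a : Fin 4 → A) (y x : Fin 3 → B) : Fin c → ℤ :=
  rect h (a 2) (a 3) (x 0) (y 0) - N • rect h (a 0) (a 1) (x 1) (y 1) -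
    rect h (a 0) (a 1) (x 2) (y 2)

/-- The pollution of a REAL signal. -/
def pol (T : Sd c B L) (N : ℤ) (v : ℝ) (y x : Fin 3 → B) (i : Fin c) : ℝ :=
  N * T.dv (x 1) (y 1) i + T.dv (x 2) (y 2) i - v * T.dv (x 0) (y 0) i

/-- The relations between the labels of a sample. -/
noncomputable def rel (T : Sd c B L) (p : ℕ) (v : ℝ) (x : Fin 3 → B) : ℤ × ℤ × (Fin 3 → L) :=
  (T.pos (x 0) - 2 ^ p * T.pos (x 1), T.pos (x 2) - ⌊v * T.pos (x 1)⌋, fun j => T.rest (x j))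

section near

variable {S : Sd c A K} {T : Sd c B L} {h : A → B → Fin c → ℤ} {C : ℝ}

/-- The ideal value of an ADD signal. -/
theorem sgA_near (H : Rect S T h C) {X p q : ℕ} {a : Fin 4 → A} (ha : IsAdd S X p q a)
    {y x : Fin 3 → B} (hr : T.rest (x 0) = T.rest (y 0)) (i : Fin c) :
    |(sgA h p a y x i : ℝ) + T.dp (x 0) (y 0) * (addS S p q a i / 2 ^ q)| ≤ (1 + 2 ^ p) * C := by
  obtain ⟨h1, -, h2, h3⟩ := ha
  have k1 := H (a 0) (a 1) (x 0) (y 0) h2 hr i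
  have k2 := H (a 2) (a 3) (x 0) (y 0) h3 hr i
  have h1' : S.dp (a 0) (a 1) = 2 ^ p * S.dp (a 2) (a 3) := by
    unfold Sd.dp
    exact_mod_cast h1
  have e : (sgA h p a y x i : ℝ) = (rect h (a 0) (a 1) (x 0) (y 0) i : ℝ) -
      2 ^ p * (rect h (a 2) (a 3) (x 0) (y 0) i : ℝ) := by
    unfold sgA
    simp only [Pi.sub_apply, Pi.smul_apply, smul_eq_mul]
    push_cast
    ring
  have e2 : addS S p q a i / 2 ^ q = S.dv (a 0) (a 1) i - 2 ^ p * S.dv (a 2) (a 3) i := by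
    unfold addS
    field_simp
  rw [e, e2]
  have hp : (0 : ℝ) < 2 ^ p := by positivity
  rw [h1'] at k1
  rw [abs_le] at k1 k2 ⊢
  have k3 := mul_le_mul_of_nonneg_left k2.1 hp.le
  have k4 := mul_le_mul_of_nonneg_left k2.2 hp.le
  constructor <;> nlinarith [k1.1, k1.2]

/-- The ideal value of a REAL signal. -/
theorem sgR_near (H : Rect S T h C) {X p q : ℕ} {N : ℤ} (hN0 : 0 ≤ N) (hNp : N ≤ 2 ^ p)
    {v v' : ℝ} (hv : v * 2 ^ p = N + v') (hv0 : 0 ≤ v') (hv1 : v' ≤ 1)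
    {a : Fin 4 → A} (ha : IsReal S X q v a) {C₀ : ℝ}
    (hS : ∀ a b i, |S.dv a b i| ≤ C₀) (hT : ∀ x y i, |T.dv x y i| ≤ C₀)
    {y x : Fin 3 → B} (hr : rel T p v' x = rel T p v' y) (i : Fin c) :
    |(sgR h N a y x i : ℝ) + T.dp (x 0) (y 0) * (realS S q v a i / 2 ^ q) +
      S.dp (a 0) (a 1) * pol T N v y x i| ≤ (2 + 2 ^ p) * C + 6 * C₀ := by
  obtain ⟨h1, -, h2, h3⟩ := ha
  unfold rel at hr
  simp only [Prod.mk.injEq] at hr
  obtain ⟨r1, r2, r3⟩ := hr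
  have hr0 := congrFun r3 0
  have hr1 := congrFun r3 1
  have hr2 := congrFun r3 2
  have k1 := H (a 2) (a 3) (x 0) (y 0) h3 hr0 i
  have k2 := H (a 0) (a 1) (x 1) (y 1) h2 hr1 i
  have k3 := H (a 0) (a 1) (x 2) (y 2) h2 hr2 i
  have hC : 0 ≤ C := (abs_nonneg _).trans k1
  have hC₀ : 0 ≤ C₀ := (abs_nonneg _).trans (hS (a 0) (a 1) i)
  have p1 : T.dp (x 0) (y 0) = 2 ^ p * T.dp (x 1) (y 1) := by
    unfold Sd.dp
    have : (T.pos (x 0) - 2 ^ p * T.pos (x 1) : ℤ) = T.pos (y 0) - 2 ^ p * T.pos (y 1) := r1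
    have h4 : ((T.pos (x 0) - 2 ^ p * T.pos (x 1) : ℤ) : ℝ) =
        ((T.pos (y 0) - 2 ^ p * T.pos (y 1) : ℤ) : ℝ) := by rw [this]
    push_cast at h4
    linarith
  have p2 : |T.dp (x 2) (y 2) - v' * T.dp (x 1) (y 1)| ≤ 1 := by
    unfold Sd.dp
    have h4 : ((T.pos (x 2) - ⌊v' * T.pos (x 1)⌋ : ℤ) : ℝ) =
        ((T.pos (y 2) - ⌊v' * T.pos (y 1)⌋ : ℤ) : ℝ) := by rw [r2]
    push_cast at h4
    have f1 := Int.floor_le (v' * (T.pos (x 1) : ℝ))
    have f2 := Int.lt_floor_add_one (v' * (T.pos (x 1) : ℝ))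
    have f3 := Int.floor_le (v' * (T.pos (y 1) : ℝ))
    have f4 := Int.lt_floor_add_one (v' * (T.pos (y 1) : ℝ))
    rw [abs_le]
    constructor <;> nlinarith
  have p3 : |N * T.dp (x 1) (y 1) + T.dp (x 2) (y 2) - v * T.dp (x 0) (y 0)| ≤ 1 := by
    have e : N * T.dp (x 1) (y 1) + T.dp (x 2) (y 2) - v * T.dp (x 0) (y 0) =
        T.dp (x 2) (y 2) - v' * T.dp (x 1) (y 1) := by
      rw [p1]
      have : v * (2 ^ p * T.dp (x 1) (y 1)) = (v * 2 ^ p) * T.dp (x 1) (y 1) := by ring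
      rw [this, hv]
      ring
    rw [e]
    exact p2
  have e1 : (sgR h N a y x i : ℝ) = (rect h (a 2) (a 3) (x 0) (y 0) i : ℝ) -
      N * (rect h (a 0) (a 1) (x 1) (y 1) i : ℝ) - (rect h (a 0) (a 1) (x 2) (y 2) i : ℝ) := by
    unfold sgR
    simp only [Pi.sub_apply, Pi.smul_apply, smul_eq_mul]
    push_cast
    ring
  have e2 : realS S q v a i / 2 ^ q = S.dv (a 2) (a 3) i - v * S.dv (a 0) (a 1) i := by
    unfold realS
    field_simp
  have hN0' : (0 : ℝ) ≤ N := by exact_mod_cast hN0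
  have hNp' : (N : ℝ) ≤ 2 ^ p := by exact_mod_cast hNp
  set E1 := (rect h (a 2) (a 3) (x 0) (y 0) i : ℝ) -
    (S.dp (a 2) (a 3) * T.dv (x 0) (y 0) i - T.dp (x 0) (y 0) * S.dv (a 2) (a 3) i) with hE1
  set E2 := (rect h (a 0) (a 1) (x 1) (y 1) i : ℝ) -
    (S.dp (a 0) (a 1) * T.dv (x 1) (y 1) i - T.dp (x 1) (y 1) * S.dv (a 0) (a 1) i) with hE2
  set E3 := (rect h (a 0) (a 1) (x 2) (y 2) i : ℝ) -
    (S.dp (a 0) (a 1) * T.dv (x 2) (y 2) i - T.dp (x 2) (y 2) * S.dv (a 0) (a 1) i) with hE3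
  have e3 : (sgR h N a y x i : ℝ) + T.dp (x 0) (y 0) * (realS S q v a i / 2 ^ q) +
      S.dp (a 0) (a 1) * pol T N v y x i = E1 - N * E2 - E3 +
        (S.dp (a 2) (a 3) - v * S.dp (a 0) (a 1)) * T.dv (x 0) (y 0) i +
        (N * T.dp (x 1) (y 1) + T.dp (x 2) (y 2) - v * T.dp (x 0) (y 0)) * S.dv (a 0) (a 1) i := by
    rw [e1, e2, hE1, hE2, hE3]
    unfold pol
    ring
  rw [e3]
  have b1 : |N * E2| ≤ 2 ^ p * C := by
    rw [abs_mul, abs_of_nonneg hN0']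
    exact mul_le_mul hNp' k2 (abs_nonneg _) (by positivity)
  have b2 : |(S.dp (a 2) (a 3) - v * S.dp (a 0) (a 1)) * T.dv (x 0) (y 0) i| ≤ 4 * C₀ := by
    rw [abs_mul]
    exact mul_le_mul h1 (hT _ _ _) (abs_nonneg _) (by norm_num)
  have b3 : |(N * T.dp (x 1) (y 1) + T.dp (x 2) (y 2) - v * T.dp (x 0) (y 0)) *
      S.dv (a 0) (a 1) i| ≤ 1 * C₀ := by
    rw [abs_mul]
    exact mul_le_mul p3 (hS _ _ _) (abs_nonneg _) (by norm_num)
  rw [abs_le] at *
  constructor <;> linarith [k1.1, k1.2, k3.1, k3.2, b1.1, b1.2, b2.1, b2.2, b3.1, b3.2]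

end near

/-! ### The signals are integer combinations of entries of the array -/

/-- The coefficients of an ADD signal. -/
def coA (p : ℕ) : Fin 12 → ℤ :=
  ![1, -1, -1, 1, -2 ^ p, 2 ^ p, 2 ^ p, -2 ^ p, 0, 0, 0, 0]

/-- The labels of an ADD signal, first side. -/
def l1A : Fin 12 → Fin 4 := ![0, 1, 0, 1, 2, 3, 2, 3, 0, 0, 0, 0]

/-- The labels of an ADD signal, second side. -/
def l2A (y x : Fin 3 → B) : Fin 12 → B :=
  ![x 0, x 0, y 0, y 0, x 0, x 0, y 0, y 0, x 0, x 0, x 0, x 0]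

/-- The coefficients of a REAL signal. -/
def coR (N : ℤ) : Fin 12 → ℤ :=
  ![1, -1, -1, 1, -N, N, N, -N, -1, 1, 1, -1]

/-- The labels of a REAL signal, first side. -/
def l1R : Fin 12 → Fin 4 := ![2, 3, 2, 3, 0, 1, 0, 1, 0, 1, 0, 1]

/-- The labels of a REAL signal, second side. -/
def l2R (y x : Fin 3 → B) : Fin 12 → B :=
  ![x 0, x 0, y 0, y 0, x 1, x 1, y 1, y 1, x 2, x 2, y 2, y 2]

theorem sgA_sum (h : A → B → Fin c → ℤ) (p : ℕ) (a : Fin 4 → A) (y x : Fin 3 → B) :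
    sgA h p a y x = ∑ j, coA p j • h (a (l1A j)) (l2A y x j) := by
  funext i
  simp only [Fin.sum_univ_succ, Fin.sum_univ_zero, coA, l1A, l2A]
  simp [sgA, rect]
  ring

theorem sgR_sum (h : A → B → Fin c → ℤ) (N : ℤ) (a : Fin 4 → A) (y x : Fin 3 → B) :
    sgR h N a y x = ∑ j, coR N j • h (a (l1R j)) (l2R y x j) := by
  funext i
  simp only [Fin.sum_univ_succ, Fin.sum_univ_zero, coR, l1R, l2R]
  simp [sgR, rect]
  ring

theorem l2A_mem (y x : Fin 3 → B) (j : Fin 12) : (∃ k, l2A y x j = x k) ∨ ∃ k, l2A y x j = y k := by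
  fin_cases j <;> simp [l2A]

theorem l2R_mem (y x : Fin 3 → B) (j : Fin 12) : (∃ k, l2R y x j = x k) ∨ ∃ k, l2R y x j = y k := by
  fin_cases j <;> simp [l2R]

theorem coA_abs (p : ℕ) : ∑ j, |(coA p j : ℝ)| = 4 * (1 + 2 ^ p) := by
  simp only [Fin.sum_univ_succ, Fin.sum_univ_zero, coA]
  simp
  ring

theorem coR_abs {N : ℤ} (hN : 0 ≤ N) : ∑ j, |(coR N j : ℝ)| = 4 * (2 + N) := by
  have : (0 : ℝ) ≤ N := by exact_mod_cast hN
  simp only [Fin.sum_univ_succ, Fin.sum_univ_zero, coR]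
  simp [abs_of_nonneg this]
  ring

/-! ### The pollution -/

section pollution

variable {T : Sd c B L} {X p l : ℕ} {v' : ℝ} {x y : Fin 3 → B}

theorem rel_dp (h : rel T p v' x = rel T p v' y) :
    T.pos (x 0) - T.pos (y 0) = 2 ^ p * (T.pos (x 1) - T.pos (y 1)) := by
  unfold rel at h
  simp only [Prod.mk.injEq] at h
  linarith [h.1]

theorem rel_rest (h : rel T p v' x = rel T p v' y) (j : Fin 3) :
    T.rest (x j) = T.rest (y j) := by
  unfold rel at h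
  simp only [Prod.mk.injEq] at h
  exact congrFun h.2.2 j

theorem rel_real (h : rel T p v' x = rel T p v' y) :
    |T.dp (x 2) (y 2) - v' * T.dp (x 1) (y 1)| ≤ 1 := by
  unfold rel at h
  simp only [Prod.mk.injEq] at h
  obtain ⟨-, r2, -⟩ := h
  unfold Sd.dp
  have h4 : ((T.pos (x 2) - ⌊v' * T.pos (x 1)⌋ : ℤ) : ℝ) =
      ((T.pos (y 2) - ⌊v' * T.pos (y 1)⌋ : ℤ) : ℝ) := by rw [r2]
  push_cast at h4
  have f1 := Int.floor_le (v' * (T.pos (x 1) : ℝ))
  have f2 := Int.lt_floor_add_one (v' * (T.pos (x 1) : ℝ))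
  have f3 := Int.floor_le (v' * (T.pos (y 1) : ℝ))
  have f4 := Int.lt_floor_add_one (v' * (T.pos (y 1) : ℝ))
  rw [abs_le]
  constructor <;> nlinarith

/-- Two samples with the same relations and close first labels form an ADD quadruple. -/
theorem pol_add (h : rel T p v' x = rel T p v' y)
    (hl : |T.pos (x 0) - T.pos (y 0)| * 2 ^ l ≤ 2 ^ X) :
    IsAdd T X p l ![x 0, y 0, x 1, y 1] :=
  ⟨rel_dp h, hl, rel_rest h 0, rel_rest h 1⟩

/-- They form a REAL quadruple. -/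
theorem pol_real (h : rel T p v' x = rel T p v' y)
    (hl : |T.pos (x 0) - T.pos (y 0)| * 2 ^ l ≤ 2 ^ X) :
    IsReal T X (l + p) v' ![x 1, y 1, x 2, y 2] := by
  refine ⟨(rel_real h).trans (by norm_num), ?_, rel_rest h 1, rel_rest h 2⟩
  show |T.pos (x 1) - T.pos (y 1)| * 2 ^ (l + p) ≤ 2 ^ X
  rw [rel_dp h, abs_mul, abs_of_nonneg (by positivity : (0 : ℤ) ≤ 2 ^ p)] at hl
  calc |T.pos (x 1) - T.pos (y 1)| * 2 ^ (l + p)
      = 2 ^ p * |T.pos (x 1) - T.pos (y 1)| * 2 ^ l := by ring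
    _ ≤ 2 ^ X := hl

/-- The difference of two pollutions. -/
theorem pol_id {N : ℤ} {v : ℝ} (hv : v * 2 ^ p = N + v') (z x y : Fin 3 → B) (l : ℕ) (i : Fin c) :
    pol T N v z x i - pol T N v z y i =
      realS T (l + p) v' ![x 1, y 1, x 2, y 2] i / 2 ^ (l + p) -
        v * (addS T p l ![x 0, y 0, x 1, y 1] i / 2 ^ l) := by
  have e1 : realS T (l + p) v' ![x 1, y 1, x 2, y 2] i / 2 ^ (l + p) =
      T.dv (x 2) (y 2) i - v' * T.dv (x 1) (y 1) i := by
    unfold realS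
    simp only [Matrix.cons_val]
    field_simp
  have e2 : addS T p l ![x 0, y 0, x 1, y 1] i / 2 ^ l =
      T.dv (x 0) (y 0) i - 2 ^ p * T.dv (x 1) (y 1) i := by
    unfold addS
    simp only [Matrix.cons_val]
    field_simp
  have hN : (N : ℝ) = v * 2 ^ p - v' := by linarith
  rw [e1, e2]
  unfold pol Sd.dv
  rw [hN]
  ring

/-- **The pollution in one coordinate.** `co` is a linear functional, bounded by `M₁` on the slope
of the ADD quadruple and by `M₂` on the slope of the REAL quadruple. -/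
theorem pol_bound {S : Sd c A K} {N : ℤ} {v : ℝ} (hv : v * 2 ^ p = N + v') (hv0 : |v| ≤ 1)
    {q : ℕ} {a : Fin 4 → A} (ha : |S.pos (a 0) - S.pos (a 1)| * 2 ^ q ≤ 2 ^ X)
    (z : Fin 3 → B) (co : (Fin c → ℝ) →ₗ[ℝ] ℝ) {M₁ M₂ : ℝ}
    (h1 : |co (addS T p l ![x 0, y 0, x 1, y 1])| ≤ M₁)
    (h2 : |co (realS T (l + p) v' ![x 1, y 1, x 2, y 2])| ≤ M₂) :
    |co (fun i => S.dp (a 0) (a 1) / 2 ^ X * (pol T N v z x i - pol T N v z y i))| ≤
      (M₁ + M₂ / 2 ^ p) / 2 ^ l / 2 ^ q := by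
  set W₁ := addS T p l ![x 0, y 0, x 1, y 1] with hW₁
  set W₂ := realS T (l + p) v' ![x 1, y 1, x 2, y 2] with hW₂
  have e1 : (fun i => S.dp (a 0) (a 1) / 2 ^ X * (pol T N v z x i - pol T N v z y i)) =
      (S.dp (a 0) (a 1) / 2 ^ X) • ((1 / 2 ^ (l + p) : ℝ) • W₂ - (v / 2 ^ l) • W₁) := by
    funext i
    rw [pol_id hv z x y l i]
    simp only [Pi.smul_apply, Pi.sub_apply, smul_eq_mul]
    ring
  rw [e1, map_smul, map_sub, map_smul, map_smul]
  simp only [smul_eq_mul]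
  rw [abs_mul]
  have b0 : |S.dp (a 0) (a 1) / 2 ^ X| ≤ 1 / 2 ^ q := by
    have h3 : |S.dp (a 0) (a 1)| * 2 ^ q ≤ 2 ^ X := by
      unfold Sd.dp
      exact_mod_cast ha
    rw [abs_div, abs_of_pos (by positivity : (0 : ℝ) < 2 ^ X), div_le_div_iff₀ (by positivity)
      (by positivity)]
    linarith
  have b1 : |1 / 2 ^ (l + p) * co W₂ - v / 2 ^ l * co W₁| ≤ (M₁ + M₂ / 2 ^ p) / 2 ^ l := by
    have c1 : |1 / 2 ^ (l + p) * co W₂| ≤ 1 / 2 ^ (l + p) * M₂ := by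
      rw [abs_mul, abs_of_pos (by positivity : (0 : ℝ) < 1 / 2 ^ (l + p))]
      exact mul_le_mul_of_nonneg_left h2 (by positivity)
    have c2 : |v / 2 ^ l * co W₁| ≤ 1 / 2 ^ l * M₁ := by
      rw [abs_mul, abs_div, abs_of_pos (by positivity : (0 : ℝ) < 2 ^ l)]
      exact mul_le_mul (div_le_div_of_nonneg_right hv0 (by positivity)) h1 (abs_nonneg _)
        (by positivity)
    calc |1 / 2 ^ (l + p) * co W₂ - v / 2 ^ l * co W₁| ≤
          |1 / 2 ^ (l + p) * co W₂| + |v / 2 ^ l * co W₁| := abs_sub _ _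
      _ ≤ 1 / 2 ^ (l + p) * M₂ + 1 / 2 ^ l * M₁ := add_le_add c1 c2
      _ = (M₁ + M₂ / 2 ^ p) / 2 ^ l := by
        rw [pow_add]
        field_simp
        ring
  calc |S.dp (a 0) (a 1) / 2 ^ X| * |1 / 2 ^ (l + p) * co W₂ - v / 2 ^ l * co W₁| ≤
        1 / 2 ^ q * ((M₁ + M₂ / 2 ^ p) / 2 ^ l) :=
        mul_le_mul b0 b1 (abs_nonneg _) (by positivity)
    _ = (M₁ + M₂ / 2 ^ p) / 2 ^ l / 2 ^ q := by ring

end pollution

end Pool.SGN30
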